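import Mathlib

/-! # Corner-free sets and subgroups -/

set_option autoImplicit false

namespace Pool.Agent.R884.CG

open Finset
open scoped Pointwise Classical

/-- no nontrivial corner `(x, y), (x, y + z), (x + z, y)` -/
def CornerFree {G : Type*} [AddCommGroup G] (A : Finset (G × G)) : Prop :=
  ∀ x y z : G, (x, y) ∈ A → (x, y + z) ∈ A → (x + z, y) ∈ A → z = 0

/-- the largest size of a corner-free set in `(F_2^n)^2` -/
noncomputable def r (n : ℕ) : ℕ :=
  ((univ : Finset (Finset ((Fin n → ZMod 2) × (Fin n → ZMod 2)))).filter CornerFree).sup card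

theorem le_r {n : ℕ} {A : Finset ((Fin n → ZMod 2) × (Fin n → ZMod 2))} (hA : CornerFree A) :
    A.card ≤ r n := by
  unfold r
  exact Finset.le_sup (f := card) (Finset.mem_filter.2 ⟨Finset.mem_univ A, hA⟩)

theorem exists_r (n : ℕ) : ∃ A : Finset ((Fin n → ZMod 2) × (Fin n → ZMod 2)),
    CornerFree A ∧ A.card = r n := by
  have hne : ((univ : Finset (Finset ((Fin n → ZMod 2) × (Fin n → ZMod 2)))).filter
      CornerFree).Nonempty :=
    ⟨∅, Finset.mem_filter.2 ⟨Finset.mem_univ _, fun x y z h => by simp at h⟩⟩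
  obtain ⟨A, hA, h⟩ := Finset.exists_mem_eq_sup _ hne card
  exact ⟨A, (Finset.mem_filter.1 hA).2, h.symm⟩

/-- the directions `z` with `(z, 0)` and `(0, z)` in `G` -/
def dirs {V : Type*} [AddCommGroup V] (G : AddSubgroup (V × V)) : AddSubgroup V :=
  G.comap (AddMonoidHom.inl V V) ⊓ G.comap (AddMonoidHom.inr V V)

theorem mem_dirs {V : Type*} [AddCommGroup V] {G : AddSubgroup (V × V)} {z : V} :
    z ∈ dirs G ↔ (z, 0) ∈ G ∧ (0, z) ∈ G := by
  unfold dirs
  rw [AddSubgroup.mem_inf, AddSubgroup.mem_comap, AddSubgroup.mem_comap]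
  rfl

theorem card_dirs {V : Type*} [AddCommGroup V] [Fintype V] (G : AddSubgroup (V × V)) :
    Nat.card G ^ 2 ≤ Nat.card (dirs G) * Nat.card V ^ 3 := by
  have h1 : (G.comap (AddMonoidHom.inl V V)).index ≤ G.index := by
    rw [AddSubgroup.index_comap]
    exact Nat.le_of_dvd (Nat.pos_of_ne_zero AddSubgroup.index_ne_zero_of_finite)
      (AddSubgroup.relIndex_dvd_index_of_normal _ _)
  have h2 : (G.comap (AddMonoidHom.inr V V)).index ≤ G.index := by
    rw [AddSubgroup.index_comap]
    exact Nat.le_of_dvd (Nat.pos_of_ne_zero AddSubgroup.index_ne_zero_of_finite)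
      (AddSubgroup.relIndex_dvd_index_of_normal _ _)
  have h3 : (dirs G).index ≤ G.index * G.index := by
    refine le_trans (AddSubgroup.index_inf_le) ?_
    exact Nat.mul_le_mul h1 h2
  have h4 : (dirs G).index * Nat.card (dirs G) = Nat.card V := AddSubgroup.index_mul_card _
  have h5 : G.index * Nat.card G = Nat.card V ^ 2 := by
    rw [AddSubgroup.index_mul_card, Nat.card_prod, sq]
  have hi : 0 < G.index := Nat.pos_of_ne_zero AddSubgroup.index_ne_zero_of_finite
  have hV : 0 < Nat.card V := Nat.card_pos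
  -- `|V| ≤ index^2 * |Z|`
  have h6 : Nat.card V ≤ G.index * G.index * Nat.card (dirs G) := by
    rw [← h4]
    exact Nat.mul_le_mul_right _ h3
  -- multiply by `|G|^2`
  have h7 : Nat.card G ^ 2 * Nat.card V ≤ Nat.card (dirs G) * Nat.card V ^ 3 * Nat.card V := by
    calc Nat.card G ^ 2 * Nat.card V ≤ Nat.card G ^ 2 * (G.index * G.index * Nat.card (dirs G)) :=
          Nat.mul_le_mul_left _ h6
      _ = (G.index * Nat.card G) ^ 2 * Nat.card (dirs G) := by ring
      _ = Nat.card (dirs G) * Nat.card V ^ 3 * Nat.card V := by rw [h5]; ring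
  exact Nat.le_of_mul_le_mul_right h7 hV

/-- double counting -/
theorem exists_translate {V U : Type*} [AddCommGroup V] [Fintype V] [Fintype U]
    (G : AddSubgroup V) (g : V) (S : Finset V) (hS : ∀ s ∈ S, s - g ∈ G) (φ : U → V)
    (hφ : ∀ u, φ u ∈ G) :
    ∃ a : V, S.card * Fintype.card U ≤
      (univ.filter fun u : U => a + φ u ∈ S).card * Nat.card G := by
  by_contra hcon
  push Not at hcon
  set T : Finset V := univ.filter fun a => a - g ∈ G with hT
  have hTc : T.card = Nat.card G := by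
    rw [Nat.card_eq_fintype_card, ← Fintype.card_coe]
    refine Fintype.card_congr ⟨fun a => ⟨a.1 - g, (Finset.mem_filter.1 a.2).2⟩,
      fun h => ⟨h.1 + g, Finset.mem_filter.2 ⟨Finset.mem_univ _, ?_⟩⟩, ?_, ?_⟩
    · rw [add_sub_cancel_right]; exact h.2
    · intro a; simp
    · intro h; simp
  have h1 : ∑ a ∈ T, (univ.filter fun u : U => a + φ u ∈ S).card = S.card * Fintype.card U := by
    simp only [Finset.card_filter]
    rw [Finset.sum_comm]
    have h2 : ∀ u : U, ∑ a ∈ T, (if a + φ u ∈ S then 1 else 0) = S.card := by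
      intro u
      rw [← Finset.card_filter]
      refine Finset.card_bij (fun a _ => a + φ u) ?_ ?_ ?_
      · intro a ha
        exact (Finset.mem_filter.1 ha).2
      · intro a _ b _ hab
        exact add_right_cancel hab
      · intro s hs
        refine ⟨s - φ u, Finset.mem_filter.2 ⟨Finset.mem_filter.2 ⟨Finset.mem_univ _, ?_⟩, ?_⟩, ?_⟩
        · have := G.sub_mem (hS s hs) (hφ u)
          have e : s - φ u - g = s - g - φ u := by abel
          rw [e]; exact this
        · rw [sub_add_cancel]; exact hs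
        · rw [sub_add_cancel]
    rw [Finset.sum_congr rfl fun u _ => h2 u, Finset.sum_const, Finset.card_univ, smul_eq_mul,
      mul_comm]
  have hTne : T.Nonempty := ⟨g, Finset.mem_filter.2 ⟨Finset.mem_univ _, by
    rw [sub_self]; exact G.zero_mem⟩⟩
  have h3 : (∑ a ∈ T, (univ.filter fun u : U => a + φ u ∈ S).card) * Nat.card G <
      ∑ a ∈ T, S.card * Fintype.card U := by
    rw [Finset.sum_mul]
    exact Finset.sum_lt_sum_of_nonempty hTne fun a _ => hcon a
  rw [h1, Finset.sum_const, smul_eq_mul, hTc, mul_comm] at h3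
  exact lt_irrefl _ h3

/-- an embedding of `F_2^m` into a subgroup of `F_2^n` with at least `2^m` elements -/
theorem exists_embed {n m : ℕ} (Z : AddSubgroup (Fin n → ZMod 2)) (h : 2 ^ m ≤ Nat.card Z) :
    ∃ φ : (Fin m → ZMod 2) →+ (Fin n → ZMod 2), Function.Injective φ ∧ ∀ u, φ u ∈ Z := by
  set W : Submodule (ZMod 2) (Fin n → ZMod 2) := AddSubgroup.toZModSubmodule 2 Z with hW
  have hWZ : ∀ x, x ∈ W ↔ x ∈ Z := by
    intro x
    rw [hW]
    exact AddSubgroup.mem_toZModSubmodule 2
  have hc : Nat.card W = 2 ^ Module.finrank (ZMod 2) W := by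
    rw [Module.natCard_eq_pow_finrank (K := ZMod 2), Nat.card_zmod]
  have hc2 : Nat.card W = Nat.card Z := Nat.card_congr (Equiv.subtypeEquivRight hWZ)
  have hm : m ≤ Module.finrank (ZMod 2) W := by
    rw [← hc2, hc] at h
    exact (Nat.pow_le_pow_iff_right (by norm_num)).1 h
  have b := Module.finBasis (ZMod 2) W
  have hli : LinearIndependent (ZMod 2) (b ∘ Fin.castLE hm) :=
    b.linearIndependent.comp _ (Fin.castLE_injective hm)
  have hinj := hli.fintypeLinearCombination_injective
  refine ⟨(W.subtype.comp (Fintype.linearCombination (ZMod 2) (b ∘ Fin.castLE hm))).toAddMonoidHom,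
    ?_, fun u => ?_⟩
  · exact (Subtype.val_injective).comp hinj
  · exact (hWZ _).1 (Subtype.mem _)

/-- the density of a corner-free set in a coset of a subgroup -/
theorem coset_bound {n m : ℕ} {A : Finset ((Fin n → ZMod 2) × (Fin n → ZMod 2))}
    (hA : CornerFree A) (G : AddSubgroup ((Fin n → ZMod 2) × (Fin n → ZMod 2)))
    (g : (Fin n → ZMod 2) × (Fin n → ZMod 2)) (h : 2 ^ m * 2 ^ (3 * n) ≤ Nat.card G ^ 2) :
    (A.filter fun x => x - g ∈ G).card * 4 ^ m ≤ r m * Nat.card G := by
  have h1 := card_dirs G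
  have hV : Nat.card (Fin n → ZMod 2) = 2 ^ n := by
    rw [Nat.card_eq_fintype_card, Fintype.card_fun, ZMod.card, Fintype.card_fin]
  rw [hV] at h1
  have h2 : 2 ^ m ≤ Nat.card (dirs G) := by
    have h3 : 2 ^ m * 2 ^ (3 * n) ≤ Nat.card (dirs G) * 2 ^ (3 * n) := by
      refine h.trans (h1.trans (le_of_eq ?_))
      rw [← pow_mul, mul_comm n 3]
    exact Nat.le_of_mul_le_mul_right h3 (by positivity)
  obtain ⟨φ, hφ, hφZ⟩ := exists_embed (dirs G) h2
  obtain ⟨a, ha⟩ := exists_translate G g (A.filter fun x => x - g ∈ G)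
    (fun s hs => (Finset.mem_filter.1 hs).2)
    (fun u : (Fin m → ZMod 2) × (Fin m → ZMod 2) => ((φ u.1, φ u.2) :
      (Fin n → ZMod 2) × (Fin n → ZMod 2))) (fun u => by
        have h3 := (mem_dirs.1 (hφZ u.1)).1
        have h4 := (mem_dirs.1 (hφZ u.2)).2
        have := G.add_mem h3 h4
        simpa using this)
  have hU : Fintype.card ((Fin m → ZMod 2) × (Fin m → ZMod 2)) = 4 ^ m := by
    rw [Fintype.card_prod, Fintype.card_fun, ZMod.card, Fintype.card_fin, ← mul_pow]
    norm_num
  rw [hU] at ha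
  refine ha.trans (Nat.mul_le_mul_right _ ?_)
  apply le_r
  intro x y z h3 h4 h5
  simp only [Finset.mem_filter, Finset.mem_univ, true_and] at h3 h4 h5
  have h3' := h3.1
  have h4' := h4.1
  have h5' := h5.1
  have h6 := hA (a.1 + φ x) (a.2 + φ y) (φ z) h3' (by
    have e : ((a.1 + φ x, a.2 + φ y + φ z) : (Fin n → ZMod 2) × (Fin n → ZMod 2)) =
      a + (φ x, φ (y + z)) := by
      rw [map_add]
      ext1
      · rfl
      · show a.2 + φ y + φ z = a.2 + (φ y + φ z)
        rw [add_assoc]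
    rw [e]; exact h4') (by
    have e : ((a.1 + φ x + φ z, a.2 + φ y) : (Fin n → ZMod 2) × (Fin n → ZMod 2)) =
      a + (φ (x + z), φ y) := by
      rw [map_add]
      ext1
      · show a.1 + φ x + φ z = a.1 + (φ x + φ z)
        rw [add_assoc]
      · rfl
    rw [e]; exact h5')
  exact hφ (by rw [h6, map_zero])

/-- the corners theorem of Mathlib in this notation -/
theorem density {ε : ℝ} (hε : 0 < ε) : ∃ m : ℕ, (r m : ℝ) < ε * 4 ^ m := by
  obtain ⟨m, hm⟩ : ∃ m : ℕ, cornersTheoremBound ε ≤ 2 ^ m :=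
    ⟨cornersTheoremBound ε, Nat.lt_two_pow_self.le⟩
  refine ⟨m, ?_⟩
  by_contra hcon
  push Not at hcon
  obtain ⟨A, hA, hAr⟩ := exists_r m
  have hV : Fintype.card (Fin m → ZMod 2) = 2 ^ m := by
    rw [Fintype.card_fun, ZMod.card, Fintype.card_fin]
  apply corners_theorem ε hε (by rw [hV]; exact hm) A (by
    rw [hV, hAr]
    refine le_trans (le_of_eq ?_) hcon
    push_cast
    rw [← pow_mul, mul_comm m 2, pow_mul]
    norm_num)
  intro x₁ y₁ x₂ y₂ h
  have h1 := h.fst_fst_mem
  have h2 := h.fst_snd_mem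
  have h3 := h.snd_fst_mem
  have h4 := h.add_eq_add
  have e : x₁ + (x₂ - x₁) = x₂ := by abel
  have e2 : y₁ + (x₂ - x₁) = y₂ := by
    have : x₂ - x₁ = y₂ - y₁ := by
      rw [sub_eq_sub_iff_add_eq_add, add_comm y₂ x₁]
      exact h4.symm
    rw [this]; abel
  have h5 := hA x₁ y₁ (x₂ - x₁) (by exact_mod_cast h1) (by rw [e2]; exact_mod_cast h2)
    (by rw [e]; exact_mod_cast h3)
  exact (sub_eq_zero.1 h5).symm

end Pool.Agent.R884.CG
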