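import Pool.Agent.R884.CG.Pfr
import Pool.Agent.R884.CG.Core

/-! # Corner-free sets with large additive energy -/

set_option autoImplicit false

namespace Pool.Agent.R884.CG

open Finset
open scoped Pointwise Classical Combinatorics.Additive

theorem two_torsion {n : ℕ} (x : (Fin n → ZMod 2) × (Fin n → ZMod 2)) : x + x = 0 := by
  ext i
  · show x.1 i + x.1 i = 0
    exact CharTwo.add_self_eq_zero _
  · show x.2 i + x.2 i = 0
    exact CharTwo.add_self_eq_zero _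

theorem energy_le {V : Type*} [AddCommGroup V] [DecidableEq V] (A : Finset V) :
    E[A] ≤ #A ^ 3 := by
  have e : #A ^ 3 = #(A ×ˢ A ×ˢ A) := by
    rw [Finset.card_product, Finset.card_product]; ring
  rw [e]
  unfold Finset.addEnergy
  apply Finset.card_le_card_of_injOn (fun x => (x.1.1, x.2.1, x.1.2))
  · intro x hx
    simp only [Finset.coe_filter, Finset.mem_product, Set.mem_ofPred_eq] at hx
    simp only [Finset.coe_product, Set.mem_prod, Finset.mem_coe]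
    exact ⟨hx.1.1.1, hx.1.2.1, hx.1.1.2⟩
  · rintro ⟨⟨a, b⟩, c, d⟩ hx ⟨⟨a', b'⟩, c', d'⟩ hy hxy
    simp only [Finset.coe_filter, Finset.mem_product, Set.mem_ofPred_eq] at hx hy
    simp only [Prod.mk.injEq] at hxy ⊢
    obtain ⟨rfl, rfl, rfl⟩ := hxy
    refine ⟨⟨rfl, rfl⟩, rfl, ?_⟩
    have h := hx.2.symm.trans hy.2
    exact add_left_cancel h

/-- the quantitative statement -/
theorem quant {n m : ℕ} {A : Finset ((Fin n → ZMod 2) × (Fin n → ZMod 2))} (hA : CornerFree A)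
    (hne : A.Nonempty) {K : ℝ} (hK : 1 ≤ K) (hE : (#A : ℝ) ^ 3 ≤ K * (E[A] : ℕ))
    (h : 2 ^ (3 * n + m + 974) * K ^ 442 ≤ (#A : ℝ) ^ 2) :
    (4 : ℝ) ^ m ≤ 2 ^ 968 * K ^ 440 * r m := by
  have hK0 : 0 < K := by linarith
  obtain ⟨G, g, b, hb, h1, h2, h3, h4⟩ := pfr_energy two_torsion hne hK0 hE
  set Λ : ℝ := (2 ^ 22 * K ^ 10) ^ 22 with hΛ
  have hΛ0 : 0 < Λ := by positivity
  have hΛ2 : Λ ^ 2 = 2 ^ 968 * K ^ 440 := by
    have e1 : 22 * (22 * 2) = 968 := by norm_num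
    have e2 : 10 * (22 * 2) = 440 := by norm_num
    rw [hΛ, ← pow_mul, mul_pow, ← pow_mul, ← pow_mul, e1, e2]
  have h974 : (2 : ℝ) ^ 974 = 2 ^ 6 * 2 ^ 968 := by rw [← pow_add]
  set S : ℕ := (A.filter fun x => x - g ∈ G).card with hS
  have hA0 : (0 : ℝ) < #A := by exact_mod_cast hne.card_pos
  have hG0 : (0 : ℝ) < Nat.card G := by exact_mod_cast Nat.card_pos
  have hS0 : (0 : ℝ) < S := by
    by_contra hcon
    push Not at hcon
    have := mul_nonpos_of_nonneg_of_nonpos hΛ0.le hcon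
    linarith
  -- the subgroup is large
  have h5 : (#A : ℝ) ≤ 8 * K * Λ * Nat.card G := by
    calc (#A : ℝ) ≤ 8 * K * b := h1
      _ ≤ 8 * K * (Λ * Nat.card G) := mul_le_mul_of_nonneg_left h4 (by positivity)
      _ = _ := by ring
  have h6 : (#A : ℝ) ^ 2 ≤ 2 ^ 974 * K ^ 442 * (Nat.card G : ℝ) ^ 2 := by
    calc (#A : ℝ) ^ 2 ≤ (8 * K * Λ * Nat.card G) ^ 2 := pow_le_pow_left₀ hA0.le h5 2
      _ = 64 * K ^ 2 * Λ ^ 2 * (Nat.card G : ℝ) ^ 2 := by ring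
      _ = _ := by rw [hΛ2, h974]; ring
  have h7 : (2 : ℝ) ^ m * 2 ^ (3 * n) ≤ (Nat.card G : ℝ) ^ 2 := by
    have h8 : 2 ^ 974 * K ^ 442 * ((2 : ℝ) ^ m * 2 ^ (3 * n)) ≤
        2 ^ 974 * K ^ 442 * (Nat.card G : ℝ) ^ 2 := by
      refine le_trans (le_of_eq ?_) (h.trans h6)
      rw [pow_add, pow_add]
      ring
    exact le_of_mul_le_mul_left h8 (by positivity)
  have h9 := coset_bound (m := m) hA G g (by exact_mod_cast h7)
  have h10 : (S : ℝ) * 4 ^ m ≤ r m * Nat.card G := by exact_mod_cast h9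
  have hr : (0 : ℝ) ≤ r m := Nat.cast_nonneg _
  have h11 : (S : ℝ) * 4 ^ m ≤ S * (2 ^ 968 * K ^ 440 * r m) := by
    calc (S : ℝ) * 4 ^ m ≤ r m * Nat.card G := h10
      _ ≤ r m * (Λ * b) := mul_le_mul_of_nonneg_left h3 hr
      _ ≤ r m * (Λ * (Λ * S)) := by
        apply mul_le_mul_of_nonneg_left _ hr
        exact mul_le_mul_of_nonneg_left h2 hΛ0.le
      _ = S * (Λ ^ 2 * r m) := by ring
      _ = _ := by rw [hΛ2]
  exact le_of_mul_le_mul_left h11 hS0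

/-- sets with energy at least `|A|^3 / K` -/
theorem bounded (K : ℝ) (hK : 1 ≤ K) : ∃ C : ℝ, ∀ (n : ℕ)
    (A : Finset ((Fin n → ZMod 2) × (Fin n → ZMod 2))), CornerFree A →
    (#A : ℝ) ^ 3 ≤ K * (E[A] : ℕ) → (#A : ℝ) ^ 2 ≤ C * 8 ^ n := by
  have hK0 : 0 < K := by linarith
  have hM : (0 : ℝ) < 2 ^ 968 * K ^ 440 := by positivity
  obtain ⟨m, hm⟩ := density (ε := (2 ^ 968 * K ^ 440)⁻¹) (inv_pos.2 hM)
  refine ⟨2 ^ (m + 974) * K ^ 442, fun n A hA hE => ?_⟩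
  rcases A.eq_empty_or_nonempty with h0 | hne
  · rw [h0, Finset.card_empty, Nat.cast_zero, zero_pow two_ne_zero]
    positivity
  by_contra hcon
  push Not at hcon
  have h1 : 2 ^ (3 * n + m + 974) * K ^ 442 ≤ (#A : ℝ) ^ 2 := by
    refine le_trans (le_of_eq ?_) hcon.le
    have : (8 : ℝ) ^ n = 2 ^ (3 * n) := by rw [pow_mul]; norm_num
    rw [this, add_assoc, pow_add (2 : ℝ) (3 * n)]
    ring
  have h2 := quant hA hne hK hE h1
  have h3 := mul_lt_mul_of_pos_left hm hM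
  rw [← mul_assoc, mul_inv_cancel₀ hM.ne', one_mul] at h3
  linarith

/-- Q1 -/
def PowerSaving : Prop := ∃ C c : ℝ, 0 < C ∧ 0 < c ∧ ∀ n : ℕ, 1 ≤ n →
  ∀ A : Finset ((Fin n → ZMod 2) × (Fin n → ZMod 2)), CornerFree A →
    (#A : ℝ) ≤ C * 4 ^ ((1 - c) * (n : ℝ))

/-- corner-free sets with more than `2^((3/2+ε)n)` elements have exponentially small energy -/
def EnergyDecay (ε : ℝ) : Prop := ∃ C c : ℝ, 0 < C ∧ 0 < c ∧ ∀ n : ℕ,
  ∀ A : Finset ((Fin n → ZMod 2) × (Fin n → ZMod 2)), CornerFree A →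
    (2 : ℝ) ^ ((3 / 2 + ε) * (n : ℝ)) ≤ #A →
    (2 : ℝ) ^ (c * (n : ℝ)) * (E[A] : ℕ) ≤ C * (#A : ℝ) ^ 3

/-- corner-free sets with more than `2^((3/2+ε)n)` elements have exponentially large sumset -/
def SumsetGrowth (ε : ℝ) : Prop := ∃ C c : ℝ, 0 < C ∧ 0 < c ∧ ∀ n : ℕ,
  ∀ A : Finset ((Fin n → ZMod 2) × (Fin n → ZMod 2)), CornerFree A →
    (2 : ℝ) ^ ((3 / 2 + ε) * (n : ℝ)) ≤ #A →
    (2 : ℝ) ^ (c * (n : ℝ)) * #A ≤ C * #(A + A)

theorem decay_of_saving (h : PowerSaving) {ε : ℝ} (hε : 0 < ε) : EnergyDecay ε := by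
  obtain ⟨C0, c0, hC0, hc0, h⟩ := h
  set D : ℝ := max 8 (4 ^ c0 * 2 ^ 968 * C0) with hD
  have hD8 : 8 ≤ D := le_max_left _ _
  have hD1 : 1 ≤ D := by linarith
  have hD2 : 4 ^ c0 * 2 ^ 968 * C0 ≤ D := le_max_right _ _
  set c : ℝ := min (ε / 442) (2 * c0 * ε / 440) with hc
  have hc1 : 0 < c := lt_min (by positivity) (by positivity)
  refine ⟨D, c, by linarith, hc1, fun n A hA hcard => ?_⟩
  have hn : (0 : ℝ) ≤ n := Nat.cast_nonneg _
  have hA0 : (0 : ℝ) < #A := lt_of_lt_of_le (Real.rpow_pos_of_pos (by norm_num) _) hcard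
  have hne : A.Nonempty := by
    rw [← Finset.card_pos]; exact_mod_cast hA0
  have hE0 : (0 : ℝ) < (E[A] : ℕ) := by exact_mod_cast Finset.addEnergy_pos hne hne
  -- `K = |A|^3 / E`
  set K : ℝ := (#A : ℝ) ^ 3 / (E[A] : ℕ) with hKd
  have hKE : K * (E[A] : ℕ) = (#A : ℝ) ^ 3 := div_mul_cancel₀ _ hE0.ne'
  have hK1 : 1 ≤ K := by
    rw [hKd, le_div_iff₀ hE0, one_mul]
    exact_mod_cast energy_le A
  have hK0 : 0 < K := by linarith
  -- it is enough to bound `K` from below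
  suffices hs : (2 : ℝ) ^ (c * (n : ℝ)) ≤ D * K by
    calc (2 : ℝ) ^ (c * (n : ℝ)) * (E[A] : ℕ) ≤ D * K * (E[A] : ℕ) :=
          mul_le_mul_of_nonneg_right hs hE0.le
      _ = D * (#A : ℝ) ^ 3 := by rw [mul_assoc, hKE]
  by_cases h1 : (2 : ℝ) ^ (ε * n) < 2 ^ 974 * K ^ 442
  · have h2 : ((2 : ℝ) ^ (ε / 442 * (n : ℝ))) ^ 442 ≤ (D * K) ^ 442 := by
      rw [← Real.rpow_natCast ((2 : ℝ) ^ (ε / 442 * (n : ℝ))), ← Real.rpow_mul (by norm_num)]
      have e : ε / 442 * (n : ℝ) * ((442 : ℕ) : ℝ) = ε * n := by push_cast; ring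
      rw [e, mul_pow]
      refine h1.le.trans (mul_le_mul_of_nonneg_right ?_ (by positivity))
      calc (2 : ℝ) ^ 974 ≤ 2 ^ (3 * 442) := pow_le_pow_right₀ (by norm_num) (by norm_num)
        _ = 8 ^ 442 := by
          have e8 : (8 : ℝ) = 2 ^ 3 := by norm_num
          rw [pow_mul, e8]
        _ ≤ D ^ 442 := pow_le_pow_left₀ (by norm_num) hD8 _
    have h3 := (pow_le_pow_iff_left₀ (by positivity) (by positivity) (by norm_num)).1 h2
    refine le_trans ?_ h3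
    apply Real.rpow_le_rpow_of_exponent_le (by norm_num)
    exact mul_le_mul_of_nonneg_right (min_le_left _ _) hn
  · push Not at h1
    have hK442 : 1 ≤ K ^ 442 := one_le_pow₀ hK1
    set m : ℕ := ⌊ε * n⌋₊ with hm
    have hm1 : (m : ℝ) ≤ ε * n := Nat.floor_le (by positivity)
    have hm2 : ε * n < m + 1 := Nat.lt_floor_add_one _
    have hm3 : 1 ≤ m := by
      apply Nat.le_floor
      by_contra hcon
      push Not at hcon
      have h4 : (2 : ℝ) ^ (ε * n) ≤ 2 ^ (1 : ℝ) :=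
        Real.rpow_le_rpow_of_exponent_le (by norm_num) (by exact_mod_cast hcon.le)
      rw [Real.rpow_one] at h4
      have h5 : (2 : ℝ) ^ 974 * 1 ≤ 2 ^ 974 * K ^ 442 :=
        mul_le_mul_of_nonneg_left hK442 (by positivity)
      have h6 : (2 : ℝ) < 2 ^ 974 * 1 := by
        rw [mul_one]
        calc (2 : ℝ) = 2 ^ 1 := (pow_one 2).symm
          _ < 2 ^ 974 := pow_lt_pow_right₀ (by norm_num) (by norm_num)
      exact absurd (h5.trans (h1.trans h4)) (not_le.2 h6)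
    have h4 : 2 ^ (3 * n + m + 974) * K ^ 442 ≤ (#A : ℝ) ^ 2 := by
      have h5 : (2 : ℝ) ^ ((3 + 2 * ε) * (n : ℝ)) ≤ (#A : ℝ) ^ 2 := by
        have h6 := pow_le_pow_left₀ (Real.rpow_nonneg (by norm_num) _) hcard 2
        refine le_trans (le_of_eq ?_) h6
        rw [← Real.rpow_natCast ((2 : ℝ) ^ ((3 / 2 + ε) * (n : ℝ))), ← Real.rpow_mul (by norm_num)]
        congr 1
        push_cast
        ring
      refine le_trans ?_ h5
      have e1 : (2 : ℝ) ^ (3 * n + m + 974) * K ^ 442 =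
          2 ^ (3 * n) * 2 ^ m * (2 ^ 974 * K ^ 442) := by
        rw [pow_add, pow_add]; ring
      have e2 : (2 : ℝ) ^ ((3 + 2 * ε) * (n : ℝ)) =
          2 ^ (3 * n) * (2 : ℝ) ^ (ε * n) * (2 : ℝ) ^ (ε * n) := by
        rw [← Real.rpow_natCast 2 (3 * n), ← Real.rpow_add (by norm_num),
          ← Real.rpow_add (by norm_num)]
        congr 1
        push_cast
        ring
      rw [e1, e2]
      apply mul_le_mul _ h1 (by positivity) (by positivity)
      apply mul_le_mul_of_nonneg_left _ (by positivity)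
      rw [← Real.rpow_natCast]
      exact Real.rpow_le_rpow_of_exponent_le (by norm_num) hm1
    have h7 := quant (m := m) hA hne hK1 (le_of_eq hKE.symm) h4
    obtain ⟨B, hB, hBr⟩ := exists_r m
    have h8 := h m hm3 B hB
    rw [hBr] at h8
    -- `4^(c0 m) ≤ 2^968 C0 K^440`
    have h9 : (4 : ℝ) ^ (c0 * (m : ℝ)) ≤ 2 ^ 968 * C0 * K ^ 440 := by
      have h10 : (4 : ℝ) ^ m ≤ 2 ^ 968 * K ^ 440 * (C0 * 4 ^ ((1 - c0) * (m : ℝ))) :=
        h7.trans (mul_le_mul_of_nonneg_left h8 (by positivity))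
      have e3 : (4 : ℝ) ^ m = 4 ^ (c0 * (m : ℝ)) * 4 ^ ((1 - c0) * (m : ℝ)) := by
        rw [← Real.rpow_add (by norm_num), ← Real.rpow_natCast]
        congr 1
        ring
      rw [e3] at h10
      have hp : (0 : ℝ) < 4 ^ ((1 - c0) * (m : ℝ)) := Real.rpow_pos_of_pos (by norm_num) _
      refine le_of_mul_le_mul_right ?_ hp
      refine h10.trans (le_of_eq ?_)
      ring
    have h11 : ((2 : ℝ) ^ (2 * c0 * ε / 440 * (n : ℝ))) ^ 440 ≤ (D * K) ^ 440 := by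
      rw [← Real.rpow_natCast ((2 : ℝ) ^ (2 * c0 * ε / 440 * (n : ℝ))),
        ← Real.rpow_mul (by norm_num)]
      have e : 2 * c0 * ε / 440 * (n : ℝ) * ((440 : ℕ) : ℝ) = 2 * (c0 * (ε * n)) := by
        push_cast; ring
      rw [e]
      have e4 : (2 : ℝ) ^ (2 * (c0 * (ε * n))) = 4 ^ (c0 * (ε * n)) := by
        rw [Real.rpow_mul (by norm_num)]; norm_num
      rw [e4]
      have h12 : (4 : ℝ) ^ (c0 * (ε * n)) ≤ 4 ^ c0 * 4 ^ (c0 * (m : ℝ)) := by
        rw [← Real.rpow_add (by norm_num)]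
        apply Real.rpow_le_rpow_of_exponent_le (by norm_num)
        nlinarith
      refine h12.trans ?_
      calc (4 : ℝ) ^ c0 * 4 ^ (c0 * (m : ℝ)) ≤ 4 ^ c0 * (2 ^ 968 * C0 * K ^ 440) :=
            mul_le_mul_of_nonneg_left h9 (Real.rpow_nonneg (by norm_num) _)
        _ = (4 ^ c0 * 2 ^ 968 * C0) * K ^ 440 := by ring
        _ ≤ D * K ^ 440 := mul_le_mul_of_nonneg_right hD2 (by positivity)
        _ ≤ D ^ 440 * K ^ 440 := by
          apply mul_le_mul_of_nonneg_right _ (by positivity)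
          exact le_self_pow₀ hD1 (by norm_num)
        _ = (D * K) ^ 440 := by rw [mul_pow]
    have h13 := (pow_le_pow_iff_left₀ (by positivity) (by positivity) (by norm_num)).1 h11
    refine le_trans ?_ h13
    apply Real.rpow_le_rpow_of_exponent_le (by norm_num)
    exact mul_le_mul_of_nonneg_right (min_le_right _ _) hn

theorem growth_of_decay {ε : ℝ} (h : EnergyDecay ε) : SumsetGrowth ε := by
  obtain ⟨C, c, hC, hc, h⟩ := h
  refine ⟨C, c, hC, hc, fun n A hA hcard => ?_⟩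
  have hA0 : (0 : ℝ) < #A := lt_of_lt_of_le (Real.rpow_pos_of_pos (by norm_num) _) hcard
  have h1 := h n A hA hcard
  have h2 : (#A : ℝ) ^ 2 * #A ^ 2 ≤ #(A + A) * (E[A] : ℕ) := by
    exact_mod_cast Finset.le_card_add_mul_addEnergy A A
  have h3 : (#A : ℝ) ^ 3 * ((2 : ℝ) ^ (c * (n : ℝ)) * #A) ≤ (#A : ℝ) ^ 3 * (C * #(A + A)) := by
    calc (#A : ℝ) ^ 3 * ((2 : ℝ) ^ (c * (n : ℝ)) * #A)
        = (2 : ℝ) ^ (c * (n : ℝ)) * ((#A : ℝ) ^ 2 * #A ^ 2) := by ring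
      _ ≤ (2 : ℝ) ^ (c * (n : ℝ)) * (#(A + A) * (E[A] : ℕ)) :=
          mul_le_mul_of_nonneg_left h2 (Real.rpow_nonneg (by norm_num) _)
      _ = #(A + A) * ((2 : ℝ) ^ (c * (n : ℝ)) * (E[A] : ℕ)) := by ring
      _ ≤ #(A + A) * (C * (#A : ℝ) ^ 3) := mul_le_mul_of_nonneg_left h1 (Nat.cast_nonneg _)
      _ = _ := by ring
  exact le_of_mul_le_mul_left h3 (by positivity)

theorem saving_of_growth {ε : ℝ} (hε : ε < 1 / 2) (h : SumsetGrowth ε) : PowerSaving := by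
  obtain ⟨C, c, hC, hc, h⟩ := h
  refine ⟨max C 1, min ((1 / 2 - ε) / 2) (c / 2), lt_of_lt_of_le hC (le_max_left _ _),
    lt_min (by linarith) (by linarith), fun n hn A hA => ?_⟩
  have hn0 : (0 : ℝ) ≤ n := Nat.cast_nonneg _
  have e4 : ∀ x : ℝ, (4 : ℝ) ^ x = 2 ^ (2 * x) := by
    intro x
    rw [Real.rpow_mul (by norm_num)]; norm_num
  rcases le_or_gt ((2 : ℝ) ^ ((3 / 2 + ε) * (n : ℝ))) #A with h1 | h1
  · have h2 := h n A hA h1
    have h3 : (#(A + A) : ℝ) ≤ 4 ^ n := by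
      have h4 := Finset.card_le_univ (A + A)
      have hU : Fintype.card ((Fin n → ZMod 2) × (Fin n → ZMod 2)) = 4 ^ n := by
        rw [Fintype.card_prod, Fintype.card_fun, ZMod.card, Fintype.card_fin, ← mul_pow]
        norm_num
      rw [hU] at h4
      exact_mod_cast h4
    have hp : (0 : ℝ) < 2 ^ (c * (n : ℝ)) := Real.rpow_pos_of_pos (by norm_num) _
    have h5 : 2 ^ (c * (n : ℝ)) * (#A : ℝ) ≤
        2 ^ (c * (n : ℝ)) * (C * 4 ^ ((1 - c / 2) * (n : ℝ))) := by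
      refine (h2.trans (mul_le_mul_of_nonneg_left h3 hC.le)).trans (le_of_eq ?_)
      rw [e4, ← Real.rpow_natCast, e4]
      have e5 : (2 : ℝ) ^ (2 * (n : ℝ)) = 2 ^ (c * (n : ℝ)) * 2 ^ (2 * ((1 - c / 2) * (n : ℝ))) := by
        rw [← Real.rpow_add (by norm_num)]
        congr 1
        ring
      rw [e5]
      ring
    have h6 := le_of_mul_le_mul_left h5 hp
    refine h6.trans ?_
    apply mul_le_mul (le_max_left _ _) _ (Real.rpow_nonneg (by norm_num) _) (by positivity)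
    apply Real.rpow_le_rpow_of_exponent_le (by norm_num)
    apply mul_le_mul_of_nonneg_right _ hn0
    have := min_le_right ((1 / 2 - ε) / 2) (c / 2)
    linarith
  · refine h1.le.trans ?_
    have h7 : (2 : ℝ) ^ ((3 / 2 + ε) * (n : ℝ)) = 4 ^ ((1 - (1 / 2 - ε) / 2) * (n : ℝ)) := by
      rw [e4]
      congr 1
      ring
    rw [h7, ← one_mul ((4 : ℝ) ^ ((1 - (1 / 2 - ε) / 2) * (n : ℝ)))]
    apply mul_le_mul (le_max_right _ _) _ (Real.rpow_nonneg (by norm_num) _) (by positivity)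
    apply Real.rpow_le_rpow_of_exponent_le (by norm_num)
    apply mul_le_mul_of_nonneg_right _ hn0
    have := min_le_left ((1 / 2 - ε) / 2) (c / 2)
    linarith

end Pool.Agent.R884.CG
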