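import Pool.Agent.H137R2.PFR.Wrap
import Pool.Agent.H217R3.AK.Bsg

/-! # Polynomial Freiman-Ruzsa in characteristic two, for sets and for the energy -/

set_option autoImplicit false

namespace Pool.Agent.R884.CG

open Finset H137.PFR
open scoped Pointwise Classical

/-- the uniform law -/
noncomputable def unif {V : Type*} (B : Finset V) : V → ℝ := fun x => if x ∈ B then (B.card : ℝ)⁻¹ else 0

theorem law_unif {V : Type*} [Fintype V] {B : Finset V} (hB : B.Nonempty) : Law (unif B) := by
  have hm : (0 : ℝ) < B.card := by exact_mod_cast hB.card_pos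
  refine ⟨fun x => ?_, ?_⟩
  · unfold unif
    split_ifs
    · exact (inv_pos.2 hm).le
    · exact le_rfl
  · unfold unif
    rw [Finset.sum_ite_mem, Finset.univ_inter, Finset.sum_const, nsmul_eq_mul,
      mul_inv_cancel₀ hm.ne']

theorem ent_unif {V : Type*} [Fintype V] {B : Finset V} (hB : B.Nonempty) :
    ent (unif B) = Real.log B.card := by
  have hm : (0 : ℝ) < B.card := by exact_mod_cast hB.card_pos
  have h1 : ent (unif B) = ∑ x ∈ B, Real.negMulLog ((B.card : ℝ)⁻¹) := by
    unfold ent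
    rw [← Finset.sum_subset (Finset.subset_univ B) (fun x _ hx => ?_)]
    · refine Finset.sum_congr rfl fun x hx => ?_
      unfold unif
      rw [if_pos hx]
    · unfold unif
      rw [if_neg hx, Real.negMulLog_zero]
  rw [h1, Finset.sum_const, nsmul_eq_mul, Real.negMulLog, Real.log_inv]
  field_simp

theorem law_conv' {V : Type*} [AddCommGroup V] [Fintype V] {μ ν : V → ℝ} (hμ : Law μ)
    (hν : Law ν) : Law (conv μ ν) := law_push (law_prod hμ hν) _

theorem ent_conv_unif {V : Type*} [AddCommGroup V] [Fintype V] [DecidableEq V] {B : Finset V}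
    (hB : B.Nonempty) : ent (conv (unif B) (unif B)) ≤ Real.log (B + B).card := by
  apply ent_le_log_card (law_conv' (law_unif hB) (law_unif hB))
  intro x hx
  rw [wrap_conv_apply]
  apply Finset.sum_eq_zero
  intro y _
  unfold unif
  by_cases h1 : y ∈ B
  · by_cases h2 : x - y ∈ B
    · exfalso
      apply hx
      rw [Finset.mem_add]
      exact ⟨y, h1, x - y, h2, by abel⟩
    · rw [if_neg h2, mul_zero]
  · rw [if_neg h1, zero_mul]

/-- polynomial Freiman-Ruzsa for sets, characteristic two -/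
theorem pfr_set {V : Type*} [AddCommGroup V] [Fintype V] [DecidableEq V] (h2 : ∀ x : V, x + x = 0)
    {B : Finset V} (hB : B.Nonempty) {L : ℝ} (hL : ((B + B).card : ℝ) ≤ L * B.card) :
    ∃ (G : AddSubgroup V) (g : V), (B.card : ℝ) ≤ L ^ 22 * (B.filter fun b => b - g ∈ G).card ∧
      (Nat.card G : ℝ) ≤ L ^ 22 * B.card ∧ (B.card : ℝ) ≤ L ^ 22 * Nat.card G := by
  have hm : (0 : ℝ) < B.card := by exact_mod_cast hB.card_pos
  have hBB : (0 : ℝ) < (B + B).card := by exact_mod_cast (hB.add hB).card_pos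
  have hL0 : 0 < L := by
    by_contra h
    push Not at h
    have := mul_nonpos_of_nonpos_of_nonneg h hm.le
    linarith
  have hμ := law_unif hB
  obtain ⟨G, hG1, hG2⟩ := pfr2 h2 hμ
  have hd : ent (conv (unif B) (unif B)) - ent (unif B) ≤ Real.log L := by
    have h3 := ent_conv_unif hB
    have h4 := Real.log_le_log hBB hL
    rw [Real.log_mul hL0.ne' hm.ne'] at h4
    rw [ent_unif hB]
    linarith
  have hlog : 22 * (ent (conv (unif B) (unif B)) - ent (unif B)) ≤ Real.log (L ^ 22) := by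
    rw [Real.log_pow]
    push_cast
    linarith
  obtain ⟨c, hc⟩ := exists_exp_le (law_push hμ (fun x : V => (QuotientAddGroup.mk x : V ⧸ G)))
  obtain ⟨g, rfl⟩ := QuotientAddGroup.mk_surjective c
  have hLp : 0 < L ^ 22 := pow_pos hL0 _
  have hG0 : (0 : ℝ) < Nat.card G := by exact_mod_cast Nat.card_pos
  refine ⟨G, g, ?_, ?_, ?_⟩
  · have h5 : (L ^ 22)⁻¹ ≤ push (unif B) (fun x : V => (QuotientAddGroup.mk x : V ⧸ G))
        (QuotientAddGroup.mk g) := by
      refine le_trans ?_ hc
      rw [← Real.exp_log (inv_pos.2 hLp), Real.log_inv]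
      apply Real.exp_le_exp.2
      have : ent (push (unif B) (fun x : V => (QuotientAddGroup.mk x : V ⧸ G))) ≤
        22 * (ent (conv (unif B) (unif B)) - ent (unif B)) := hG1
      linarith
    have h6 : push (unif B) (fun x : V => (QuotientAddGroup.mk x : V ⧸ G))
        (QuotientAddGroup.mk g) = (B.card : ℝ)⁻¹ * (B.filter fun b => b - g ∈ G).card := by
      unfold push unif
      rw [mul_comm, ← nsmul_eq_mul, ← Finset.sum_const, Finset.sum_filter,
        ← Finset.sum_subset (Finset.subset_univ B) (fun x _ hx => ?_)]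
      · refine Finset.sum_congr rfl fun x hx => ?_
        have hiff : ((QuotientAddGroup.mk x : V ⧸ G) = QuotientAddGroup.mk g) ↔ x - g ∈ G := by
          rw [eq_comm, QuotientAddGroup.eq]
          have : -g + x = x - g := by abel
          rw [this]
        by_cases h : x - g ∈ G
        · rw [if_pos h, if_pos (hiff.2 h), if_pos hx]
        · rw [if_neg h, if_neg (fun h' => h (hiff.1 h'))]
      · rw [if_neg hx]
        split_ifs <;> rfl
    rw [h6] at h5
    have h7 := mul_le_mul_of_nonneg_left h5 (mul_nonneg hLp.le hm.le)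
    have e1 : L ^ 22 * (B.card : ℝ) * (L ^ 22)⁻¹ = B.card := by field_simp
    have e2 : L ^ 22 * (B.card : ℝ) * ((B.card : ℝ)⁻¹ * (B.filter fun b => b - g ∈ G).card) =
      L ^ 22 * (B.filter fun b => b - g ∈ G).card := by field_simp
    rw [e1, e2] at h7
    exact h7
  · have h5 := (abs_le.1 hG2).2
    rw [ent_unif hB] at h5
    have h6 : Real.log (Nat.card G) ≤ Real.log (L ^ 22 * B.card) := by
      rw [Real.log_mul hLp.ne' hm.ne']
      rw [ent_unif hB] at hlog
      linarith
    exact (Real.log_le_log_iff hG0 (mul_pos hLp hm)).1 h6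
  · have h5 := (abs_le.1 hG2).1
    rw [ent_unif hB] at h5
    have h6 : Real.log B.card ≤ Real.log (L ^ 22 * Nat.card G) := by
      rw [Real.log_mul hLp.ne' hG0.ne']
      rw [ent_unif hB] at hlog
      linarith
    exact (Real.log_le_log_iff hm (mul_pos hLp hG0)).1 h6

/-- polynomial Freiman-Ruzsa for sets with large additive energy, characteristic two -/
theorem pfr_energy {V : Type*} [AddCommGroup V] [Fintype V] [DecidableEq V] (h2 : ∀ x : V, x + x = 0)
    {A : Finset V} (hA : A.Nonempty) {K : ℝ} (hK : 0 < K)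
    (hE : (A.card : ℝ) ^ 3 ≤ K * (A.addEnergy A : ℕ)) :
    ∃ (G : AddSubgroup V) (g : V) (b : ℝ), 0 < b ∧ (A.card : ℝ) ≤ 8 * K * b ∧
      b ≤ (2 ^ 22 * K ^ 10) ^ 22 * (A.filter fun x => x - g ∈ G).card ∧
      (Nat.card G : ℝ) ≤ (2 ^ 22 * K ^ 10) ^ 22 * b ∧
      b ≤ (2 ^ 22 * K ^ 10) ^ 22 * Nat.card G := by
  obtain ⟨B, hBA, hB, h3, h4⟩ := Pool.Agent.H217R3.AK.bsg A hA K hK hE
  have hneg : ∀ x : V, -x = x := fun x => neg_eq_of_add_eq_zero_left (h2 x)
  have h5 : B - B = B + B := by
    ext x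
    simp only [Finset.mem_sub, Finset.mem_add]
    constructor
    · rintro ⟨y, hy, z, hz, rfl⟩
      exact ⟨y, hy, z, hz, by rw [sub_eq_add_neg, hneg]⟩
    · rintro ⟨y, hy, z, hz, rfl⟩
      exact ⟨y, hy, z, hz, by rw [sub_eq_add_neg, hneg]⟩
  rw [h5] at h4
  obtain ⟨G, g, h6, h7, h8⟩ := pfr_set h2 hB h4
  refine ⟨G, g, B.card, by exact_mod_cast hB.card_pos, h3, h6.trans ?_, h7, h8⟩
  apply mul_le_mul_of_nonneg_left _ (by positivity)
  exact_mod_cast Finset.card_le_card (Finset.filter_subset_filter _ hBA)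

end Pool.Agent.R884.CG
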