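import Pool.Agent.R884.CG.Main
import Pool.Agent.Y48.CO.Sharp

/-! # The exponent `3/2` is the threshold -/

set_option autoImplicit false

namespace Pool.Agent.R884.CG

open Finset
open scoped Pointwise Classical Combinatorics.Additive

theorem not_growth {ε : ℝ} (hε : ε ≤ 0) : ¬ SumsetGrowth ε := by
  rintro ⟨C, c, hC, hc, h⟩
  obtain ⟨m, hm⟩ := exists_nat_gt (Real.logb 2 C / (2 * c))
  obtain ⟨A, hA, hcl, hcard⟩ := Pool.Agent.Y48.CO.Sharp.done m
  have hadd : A + A ⊆ A := by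
    intro x hx
    obtain ⟨a, ha, b, hb, rfl⟩ := Finset.mem_add.1 hx
    have h1 := hcl 2 (fun v => v 0 + v 1) ![a, b] (by
      intro l
      fin_cases l
      · exact ha
      · exact hb)
    exact h1
  have h8 : (#A : ℝ) = 8 ^ m := by rw [hcard]; push_cast; ring
  have hA0 : (0 : ℝ) < #A := by rw [h8]; positivity
  have h2 : (2 : ℝ) ^ ((3 / 2 + ε) * ((2 * m : ℕ) : ℝ)) ≤ #A := by
    rw [h8, show (8 : ℝ) = 2 ^ (3 : ℝ) by norm_num, ← Real.rpow_natCast ((2 : ℝ) ^ (3 : ℝ)),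
      ← Real.rpow_mul (by norm_num)]
    apply Real.rpow_le_rpow_of_exponent_le (by norm_num)
    push_cast
    have hm0 : (0 : ℝ) ≤ m := Nat.cast_nonneg _
    nlinarith
  have h3 := h (2 * m) A hA h2
  have h4 : (#(A + A) : ℝ) ≤ #A := by exact_mod_cast Finset.card_le_card hadd
  have h5 : (2 : ℝ) ^ (c * ((2 * m : ℕ) : ℝ)) * #A ≤ C * #A :=
    h3.trans (mul_le_mul_of_nonneg_left h4 hC.le)
  have h6 := le_of_mul_le_mul_right h5 hA0
  have h7 : c * ((2 * m : ℕ) : ℝ) ≤ Real.logb 2 C := by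
    rw [Real.le_logb_iff_rpow_le (by norm_num) hC]
    exact h6
  rw [div_lt_iff₀ (by positivity)] at hm
  push_cast at h7
  nlinarith

theorem not_decay {ε : ℝ} (hε : ε ≤ 0) : ¬ EnergyDecay ε := fun h => not_growth hε (growth_of_decay h)

end Pool.Agent.R884.CG
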